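import Mathlib

set_option autoImplicit false

namespace Pool.Agent.Results.MP_df1ab4_co.UnboundedCuttingDistance

open Filter Topology

/-- The subword of `V` formed by the positions whose mark in `s` is `b`. -/
def pick {A : Type} (b : Bool) (s : List Bool) (V : List A) : List A :=
  ((V.zip s).filter fun p => p.2 = b).map Prod.fst

/-- `V` is a shuffle square: its positions split into two classes (marked by `s`) whose subwords
are equal. -/
def IsShuffleSquare {A : Type} (V : List A) : Prop :=
  ∃ s : List Bool, s.length = V.length ∧ pick true s V = pick false s V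

/-- Every letter occurs in `W` an even number of times. -/
def IsEven {k : ℕ} (W : List (Fin k)) : Prop := ∀ a, Even (W.count a)

/-- `W = B_1 B_2 ⋯ B_{c+1}` for some blocks such that `B_{π(1)} ⋯ B_{π(c+1)}` is a shuffle square
for some permutation `π`. -/
def CutsTo {A : Type} (c : ℕ) (W : List A) : Prop :=
  ∃ B : Fin (c + 1) → List A, (List.ofFn B).flatten = W ∧
    ∃ π : Equiv.Perm (Fin (c + 1)), IsShuffleSquare (List.ofFn (B ∘ π)).flatten

/-- The cutting distance: the least `c` with `CutsTo c W` (and `⊤` if there is none). -/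
noncomputable def cuttingDistance {A : Type} (W : List A) : ℕ∞ :=
  ⨅ (c : ℕ) (_ : CutsTo c W), (c : ℕ∞)

/-! ### Decoding -/

section decode

variable {A : Type}

theorem pick_cons (b x : Bool) (a : A) (s : List Bool) (V : List A) :
    pick b (x :: s) (a :: V) = if x = b then a :: pick b s V else pick b s V := by
  unfold pick
  rw [List.zip_cons_cons, List.filter_cons]
  by_cases h : x = b <;> simp [h]

theorem pick_inj (s : List Bool) : ∀ V V' : List A, V.length = s.length → V'.length = s.length →
    pick true s V = pick true s V' → pick false s V = pick false s V' → V = V' := by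
  induction s with
  | nil =>
    intro V V' h1 h2 _ _
    rw [List.length_eq_zero_iff.1 h1, List.length_eq_zero_iff.1 h2]
  | cons x s ih =>
    intro V V' h1 h2 h3 h4
    match V, V' with
    | a :: V, a' :: V' =>
      simp only [pick_cons] at h3 h4
      simp only [List.length_cons, Nat.add_right_cancel_iff] at h1 h2
      cases x
      · simp only [Bool.false_eq_true, if_false, if_true, List.cons.injEq] at h3 h4
        rw [h4.1, ih V V' h1 h2 h3 h4.2]
      · simp only [Bool.true_eq_false, if_false, if_true, List.cons.injEq] at h3 h4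
        rw [h3.1, ih V V' h1 h2 h3.2 h4]

theorem pick_length (s : List Bool) : ∀ V : List A, V.length = s.length →
    (pick true s V).length + (pick false s V).length = s.length := by
  induction s with
  | nil => intro V _; simp [pick]
  | cons x s ih =>
    intro V h
    match V with
    | a :: V =>
      simp only [List.length_cons, Nat.add_right_cancel_iff] at h
      have := ih V h
      simp only [pick_cons]
      cases x
      · simp only [Bool.false_eq_true, if_false, if_true, List.length_cons]
        omega
      · simp only [Bool.true_eq_false, if_false, if_true, List.length_cons]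
        omega

theorem flatten_perm_length {c : ℕ} (B : Fin (c + 1) → List A) (π : Equiv.Perm (Fin (c + 1))) :
    (List.ofFn (B ∘ π)).flatten.length = (List.ofFn B).flatten.length :=
  (π.ofFn_comp_perm B).flatten.length_eq

end decode

/-- the data encoding a word that is cut into a shuffle square -/
abbrev Data (k c n : ℕ) : Type :=
  Equiv.Perm (Fin (c + 1)) × (Fin (c + 1) → Fin (2 * n + 1)) × List.Vector Bool (2 * n) ×
    List.Vector (Fin k) n

/-- the relation between words and data -/
def Rel {k c n : ℕ} (W : List (Fin k)) (d : Data k c n) : Prop :=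
  ∃ B : Fin (c + 1) → List (Fin k), (List.ofFn B).flatten = W ∧
    (∀ i, (B i).length = (d.2.1 i : ℕ)) ∧
    (List.ofFn (B ∘ d.1)).flatten.length = d.2.2.1.toList.length ∧
    pick true d.2.2.1.toList (List.ofFn (B ∘ d.1)).flatten = d.2.2.2.toList ∧
    pick false d.2.2.1.toList (List.ofFn (B ∘ d.1)).flatten = d.2.2.2.toList

theorem rel_inj {k c n : ℕ} {W W' : List (Fin k)} {d : Data k c n} (h : Rel W d)
    (h' : Rel W' d) : W = W' := by
  obtain ⟨B, h1, h2, h3, h4, h5⟩ := h
  obtain ⟨B', h1', h2', h3', h4', h5'⟩ := h'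
  have hV : (List.ofFn (B ∘ d.1)).flatten = (List.ofFn (B' ∘ d.1)).flatten :=
    pick_inj _ _ _ h3 h3' (h4.trans h4'.symm) (h5.trans h5'.symm)
  have hL : (List.ofFn (B ∘ d.1)) = (List.ofFn (B' ∘ d.1)) := by
    rw [List.eq_iff_flatten_eq]
    refine ⟨hV, ?_⟩
    rw [List.map_ofFn, List.map_ofFn]
    congr 1
    funext i
    simp [h2, h2']
  have hB : B ∘ d.1 = B' ∘ d.1 := List.ofFn_injective hL
  have hB' : B = B' := d.1.surjective.injective_comp_right hB
  rw [← h1, ← h1', hB']

theorem exists_data {k c n : ℕ} {W : List (Fin k)} (hW : W.length = 2 * n) (h : CutsTo c W) :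
    ∃ d : Data k c n, Rel W d := by
  obtain ⟨B, h1, π, s, hs, hpick⟩ := h
  have hlen : (List.ofFn (B ∘ π)).flatten.length = 2 * n := by
    rw [flatten_perm_length, h1, hW]
  have hs' : s.length = 2 * n := hs.trans hlen
  have hB : ∀ i, (B i).length < 2 * n + 1 := by
    intro i
    have h2 : B i ∈ List.ofFn B := List.mem_ofFn.2 ⟨i, rfl⟩
    have h3 := (List.sublist_flatten_of_mem h2).length_le
    rw [h1, hW] at h3
    omega
  have hu : (pick true s (List.ofFn (B ∘ π)).flatten).length = n := by
    have h4 := pick_length s _ hs.symm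
    rw [← hpick] at h4
    omega
  exact ⟨(π, fun i => ⟨(B i).length, hB i⟩, ⟨s, hs'⟩, ⟨_, hu⟩), B, h1, fun i => rfl, hs.symm, rfl,
    hpick.symm⟩

theorem ncard_cutsTo_le (k c n : ℕ) :
    {W : List (Fin k) | W.length = 2 * n ∧ CutsTo c W}.ncard ≤
      (c + 1).factorial * (2 * n + 1) ^ (c + 1) * (4 * k) ^ n := by
  classical
  have hex : ∀ W : {W : List (Fin k) // W.length = 2 * n ∧ CutsTo c W},
      ∃ d : Data k c n, Rel W.1 d := fun W => exists_data W.2.1 W.2.2
  choose f hf using hex
  have hinj : Function.Injective f := by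
    intro W W' hWW
    apply Subtype.ext
    have h1 := hf W
    rw [hWW] at h1
    exact rel_inj h1 (hf W')
  have h1 := Nat.card_le_card_of_injective f hinj
  have h2 : Nat.card (Data k c n) =
      (c + 1).factorial * (2 * n + 1) ^ (c + 1) * (4 * k) ^ n := by
    rw [Nat.card_eq_fintype_card]
    simp only [Fintype.card_prod, Fintype.card_perm, Fintype.card_fin, Fintype.card_pi,
      Finset.prod_const, Finset.card_univ, card_vector, Fintype.card_bool]
    rw [pow_mul, mul_pow]
    ring
  rw [h2] at h1
  exact h1

theorem finite_length (k n : ℕ) (p : List (Fin k) → Prop) :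
    {W : List (Fin k) | W.length = n ∧ p W}.Finite :=
  (List.finite_length_eq (Fin k) n).subset fun _ h => h.1

theorem ncard_bad_le (k C n : ℕ) :
    {W : List (Fin k) | W.length = 2 * n ∧ ∃ c ≤ C, CutsTo c W}.ncard ≤
      (C + 1) * ((C + 1).factorial * (2 * n + 1) ^ (C + 1) * (4 * k) ^ n) := by
  induction C with
  | zero =>
    have h := ncard_cutsTo_le k 0 n
    have h2 : {W : List (Fin k) | W.length = 2 * n ∧ ∃ c ≤ 0, CutsTo c W} =
        {W : List (Fin k) | W.length = 2 * n ∧ CutsTo 0 W} := by
      ext W
      simp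
    rw [h2]
    simpa using h
  | succ C ih =>
    have h := ncard_cutsTo_le k (C + 1) n
    have hsub : {W : List (Fin k) | W.length = 2 * n ∧ ∃ c ≤ C + 1, CutsTo c W} ⊆
        {W : List (Fin k) | W.length = 2 * n ∧ ∃ c ≤ C, CutsTo c W} ∪
        {W : List (Fin k) | W.length = 2 * n ∧ CutsTo (C + 1) W} := by
      rintro W ⟨h1, c, hc, h2⟩
      rcases Nat.lt_or_ge C c with h3 | h3
      · have : c = C + 1 := by omega
        subst this
        exact Or.inr ⟨h1, h2⟩
      · exact Or.inl ⟨h1, c, h3, h2⟩
    have h3 := Set.ncard_le_ncard hsub ((finite_length k _ _).union (finite_length k _ _))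
    have h4 := h3.trans (Set.ncard_union_le _ _)
    have h5 : (C + 1) * ((C + 1).factorial * (2 * n + 1) ^ (C + 1) * (4 * k) ^ n) ≤
        (C + 1) * ((C + 1 + 1).factorial * (2 * n + 1) ^ (C + 1 + 1) * (4 * k) ^ n) := by
      apply Nat.mul_le_mul_left
      apply Nat.mul_le_mul_right
      apply Nat.mul_le_mul
      · exact Nat.factorial_le (Nat.le_succ _)
      · exact Nat.pow_le_pow_right (by omega) (Nat.le_succ _)
    calc _ ≤ _ := h4
      _ ≤ (C + 1) * ((C + 1 + 1).factorial * (2 * n + 1) ^ (C + 1 + 1) * (4 * k) ^ n) +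
          ((C + 1 + 1).factorial * (2 * n + 1) ^ (C + 1 + 1) * (4 * k) ^ n) :=
          Nat.add_le_add (ih.trans h5) h
      _ = _ := by ring

/-! ### Even words -/

theorem exists_tail {k m : ℕ} [NeZero k] (hm : Even (m + k)) (u : List (Fin k))
    (hu : u.length = m) : ∃ t : List (Fin k), t.length = k ∧ IsEven (u ++ t) := by
  classical
  set O : Finset (Fin k) := Finset.univ.filter fun a => Odd (u.count a) with hO
  have hcardO : O.card ≤ k := by
    have := Finset.card_le_univ O
    simpa using this
  have hsum : ∑ a : Fin k, u.count a = m := by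
    have h1 := List.sum_toFinset_count_eq_length u
    rw [hu] at h1
    rw [← h1]
    symm
    apply Finset.sum_subset (Finset.subset_univ _)
    intro a _ ha
    rw [List.mem_toFinset] at ha
    exact List.count_eq_zero.2 ha
  have hpar : Even (O.card + m) := by
    have h1 := Finset.odd_sum_iff_odd_card_odd (s := Finset.univ) (fun a : Fin k => u.count a)
    rw [hsum] at h1
    by_cases h : Odd m
    · exact (h1.1 h).add_odd h
    · have h2 : ¬ Odd O.card := fun h3 => h (h1.2 h3)
      rw [Nat.not_odd_iff_even] at h h2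
      exact h2.add h
  have hk : Even (k - O.card) := by
    have h1 : (m + k) + (O.card + m) = (k - O.card) + 2 * (m + O.card) := by omega
    have h2 : Even ((k - O.card) + 2 * (m + O.card)) := by
      rw [← h1]; exact hm.add hpar
    exact (Nat.even_add.1 h2).2 (even_two_mul _)
  refine ⟨O.toList ++ List.replicate (k - O.card) 0, ?_, ?_⟩
  · rw [List.length_append, Finset.length_toList, List.length_replicate]
    omega
  · intro a
    rw [List.count_append, List.count_append]
    have h1 : Even ((List.replicate (k - O.card) (0 : Fin k)).count a) := by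
      rw [List.count_replicate]
      split_ifs
      · exact hk
      · exact Even.zero
    have h2 : Even (u.count a + O.toList.count a) := by
      by_cases ha : a ∈ O
      · have h3 : O.toList.count a = 1 :=
          List.count_eq_one_of_mem (Finset.nodup_toList O) (Finset.mem_toList.2 ha)
        rw [h3]
        exact (Finset.mem_filter.1 ha).2.add_one
      · have h3 : O.toList.count a = 0 :=
          List.count_eq_zero.2 fun h => ha (Finset.mem_toList.1 h)
        have h4 : ¬ Odd (u.count a) := fun h => ha (Finset.mem_filter.2 ⟨Finset.mem_univ _, h⟩)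
        rw [h3, add_zero]
        exact Nat.not_odd_iff_even.1 h4
    rw [← add_assoc]
    exact h2.add h1

theorem le_ncard_even {k n : ℕ} [NeZero k] (hn : k ≤ 2 * n) :
    k ^ (2 * n - k) ≤ {W : List (Fin k) | W.length = 2 * n ∧ IsEven W}.ncard := by
  classical
  have hm : Even ((2 * n - k) + k) := by
    rw [Nat.sub_add_cancel hn]
    exact even_two_mul _
  have hex : ∀ u : List.Vector (Fin k) (2 * n - k), ∃ t : List (Fin k), t.length = k ∧
      IsEven (u.toList ++ t) := fun u => exists_tail hm u.toList u.toList_length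
  choose t ht1 ht2 using hex
  let f : List.Vector (Fin k) (2 * n - k) →
      {W : List (Fin k) // W.length = 2 * n ∧ IsEven W} := fun u =>
    ⟨u.toList ++ t u, by rw [List.length_append, u.toList_length, ht1]; omega, ht2 u⟩
  have hinj : Function.Injective f := by
    intro u u' h
    have h1 : u.toList ++ t u = u'.toList ++ t u' := congrArg Subtype.val h
    have h2 := (List.append_inj h1 (by rw [u.toList_length, u'.toList_length])).1
    exact List.Vector.eq _ _ h2
  haveI : Finite {W : List (Fin k) // W.length = 2 * n ∧ IsEven W} :=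
    (finite_length k (2 * n) IsEven).to_subtype
  have h1 := Nat.card_le_card_of_injective f hinj
  rw [Nat.card_eq_fintype_card, card_vector, Fintype.card_fin] at h1
  exact h1

/-! ### Asymptotics -/

theorem exists_n {k : ℕ} (hk : 5 ≤ k) (K c : ℕ) :
    ∃ n, k ≤ 2 * n ∧ K * (2 * n + 1) ^ c * (4 * k) ^ n < k ^ (2 * n - k) := by
  have hr : (1 : ℝ) < k / 4 := by
    rw [lt_div_iff₀ (by norm_num)]
    have : (5 : ℝ) ≤ k := by exact_mod_cast hk
    linarith
  have hk0 : (0 : ℝ) < k := by
    have : (5 : ℝ) ≤ k := by exact_mod_cast hk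
    linarith
  have ht := tendsto_pow_const_div_const_pow_of_one_lt c hr
  have hpos : (0 : ℝ) < 1 / ((K + 1) * 3 ^ c * k ^ k) := by positivity
  have hev := (ht.eventually (gt_mem_nhds hpos)).and
    ((eventually_ge_atTop 1).and (eventually_ge_atTop k))
  obtain ⟨n, h1, h2, h3⟩ := hev.exists
  refine ⟨n, by omega, ?_⟩
  have h4 : (n : ℝ) ^ c * ((K + 1) * 3 ^ c * k ^ k) < (k / 4 : ℝ) ^ n := by
    rw [div_lt_div_iff₀ (by positivity) (by positivity), one_mul] at h1
    exact h1
  have h5 : (K : ℝ) * (2 * n + 1) ^ c * (4 * k) ^ n * k ^ k < k ^ (2 * n) := by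
    have h6 : (2 * (n : ℝ) + 1) ^ c ≤ (3 * n) ^ c := by
      apply pow_le_pow_left₀ (by positivity)
      have : (1 : ℝ) ≤ n := by exact_mod_cast h2
      linarith
    calc (K : ℝ) * (2 * n + 1) ^ c * (4 * k) ^ n * k ^ k
        ≤ (K + 1) * (3 * n) ^ c * (4 * k) ^ n * k ^ k := by
          gcongr
          linarith
      _ = (n : ℝ) ^ c * ((K + 1) * 3 ^ c * k ^ k) * (4 * k) ^ n := by
          rw [mul_pow]; ring
      _ < (k / 4 : ℝ) ^ n * (4 * k) ^ n := by
          apply mul_lt_mul_of_pos_right h4
          positivity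
      _ = k ^ (2 * n) := by
          rw [← mul_pow, pow_mul]
          congr 1
          ring
  have h7 : K * (2 * n + 1) ^ c * (4 * k) ^ n * k ^ k < k ^ (2 * n) := by exact_mod_cast h5
  have h8 : k ^ (2 * n) = k ^ (2 * n - k) * k ^ k := by
    rw [← pow_add]
    congr 1
    omega
  rw [h8] at h7
  exact lt_of_mul_lt_mul_right h7 (Nat.zero_le _)

/-- For every alphabet size `k ≥ 5` the cutting distance of even `k`-ary words is unbounded: for
every `C` there is an even `k`-ary word `W` with `c(W) > C`. In particular (`C = k`) the bound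
`c(W) ≤ k` fails for every `k ≥ 5`. -/
theorem result (k : ℕ) (hk : 5 ≤ k) (C : ℕ) :
    ∃ W : List (Fin k), IsEven W ∧ (C : ℕ∞) < cuttingDistance W := by
  haveI : NeZero k := ⟨by omega⟩
  obtain ⟨n, hn, hlt⟩ := exists_n hk ((C + 1) * (C + 1).factorial) (C + 1)
  have h1 := ncard_bad_le k C n
  have h2 := le_ncard_even hn
  have h3 : {W : List (Fin k) | W.length = 2 * n ∧ ∃ c ≤ C, CutsTo c W}.ncard <
      {W : List (Fin k) | W.length = 2 * n ∧ IsEven W}.ncard := by
    calc _ ≤ _ := h1
      _ = (C + 1) * (C + 1).factorial * (2 * n + 1) ^ (C + 1) * (4 * k) ^ n := by ring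
      _ < _ := hlt
      _ ≤ _ := h2
  obtain ⟨W, hW1, hW2⟩ := Set.exists_mem_notMem_of_ncard_lt_ncard h3 (finite_length k _ _)
  refine ⟨W, hW1.2, ?_⟩
  have h4 : ((C + 1 : ℕ) : ℕ∞) ≤ cuttingDistance W := by
    refine le_iInf₂ fun c hc => ?_
    have : C + 1 ≤ c := by
      by_contra hcon
      exact hW2 ⟨hW1.1, c, by omega, hc⟩
    exact_mod_cast this
  refine lt_of_lt_of_le ?_ h4
  exact_mod_cast Nat.lt_succ_self C

end Pool.Agent.Results.MP_df1ab4_co.UnboundedCuttingDistance
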